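import Pool.Agent.X103.Rw.G
import Pool.Agent.X103.Rw.M

/-!
# The random wave model is characterised by its behaviour at infinity (MP_4fa179_mp)

Every Benjamini-Schramm limit of Laplace eigenfunctions of a compact surface, rescaled to
eigenvalue `1`, is the law of a stationary random field `F` on the plane with smooth samples,
`ΔF + F = 0` and `E F(0)² ≤ 1`; as the base frame is random it can be taken isotropic. The theorem
is about all such fields. The field `F` is the isotropic monochromatic Gaussian wave if and only if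
for every finite linear combination `Z` of its values the correlation of `F(y)` with `exp(iZ)` is,
to leading order `|y|^(-1/2)`, the one of the model. It is enough to know this in the mean square
sense, and along some sequence of radii. The statement is quantitative: if the mean square error
at one scale `R ≥ 1` is at most `δ² / R`, then the characteristic function of `Z` is `O(δ)`-close to
the one of the model.
-/

set_option autoImplicit false
open MeasureTheory Filter Topology
open scoped ContDiff ENNReal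

namespace Pool.Agent.Results.MP_4fa179_mp.AsymptoticRandomWave

noncomputable section

/-- the space `ℝ^d` -/
abbrev Space (d : ℕ) : Type := EuclideanSpace ℝ (Fin d)

/-- the plane -/
abbrev Plane : Type := Space 2

/-- the Laplacian `∑ ∂_i²` of `ℝ^d` -/
def laplacian {d : ℕ} (f : Space d → ℝ) (y : Space d) : ℝ :=
  ∑ i, fderiv ℝ (fun z => fderiv ℝ f z (EuclideanSpace.single i 1)) y (EuclideanSpace.single i 1)

/-- `F` is a stationary random field on `ℝ^d` with smooth samples, `ΔF + F = 0` and
`E F(0)² < ∞`. Stationary means: the shifted field has the same law, in the product of copies of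
`ℝ` indexed by the points of `ℝ^d`. -/
structure IsStationaryWave {d : ℕ} {S : Type*} [MeasurableSpace S] (P : Measure S)
    (F : S → Space d → ℝ) : Prop where
  prob : IsProbabilityMeasure P
  measurable : ∀ y, Measurable fun s => F s y
  smooth : ∀ s, ContDiff ℝ ∞ (F s)
  eigen : ∀ s y, laplacian (F s) y + F s y = 0
  stationary : ∀ x : Space d, P.map (fun s y => F s (y + x)) = P.map (fun s y => F s y)
  moment : Integrable (fun s => F s 0 ^ 2) P

variable {S : Type*} [MeasurableSpace S]

/-- the linear statistic `Z = ∑ t_j F(x_j)` -/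
def linear (F : S → Plane → ℝ) {n : ℕ} (x : Fin n → Plane) (t : Fin n → ℝ) (s : S) : ℝ :=
  ∑ j, t j * F s (x j)

/-- the Bessel function `J₀(r)`, the average of `cos (r cos θ)` -/
def besselJ0 (r : ℝ) : ℝ := ∫ t in (0 : ℝ)..1, Real.cos (r * Real.cos (2 * Real.pi * t))

/-- `F` is the isotropic monochromatic Gaussian wave: a centred Gaussian field (we ask
`E exp(iZ) = exp(-E Z² / 2)` for all linear statistics) with covariance `J₀(|x - y|)` -/
def IsRandomWaveModel (P : Measure S) (F : S → Plane → ℝ) : Prop :=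
  (∀ (n : ℕ) (x : Fin n → Plane) (t : Fin n → ℝ),
    ∫ s, Real.cos (linear F x t s) ∂P = Real.exp (-(∫ s, linear F x t s ^ 2 ∂P) / 2) ∧
      ∫ s, Real.sin (linear F x t s) ∂P = 0) ∧
  ∀ x y : Plane, ∫ s, F s y * F s x ∂P = besselJ0 ‖y - x‖

/-- the square of the modulus of `E F(y) exp(iZ) - i (∑ t_j J₀(|y - x_j|)) E exp(iZ)` for
`Z = ∑ t_j F(x_j)` -/
def defect (P : Measure S) (F : S → Plane → ℝ) {n : ℕ} (x : Fin n → Plane) (t : Fin n → ℝ)
    (y : Plane) : ℝ :=
  (∫ s, F s y * Real.cos (linear F x t s) ∂P +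
    (∫ s, Real.sin (linear F x t s) ∂P) * ∑ j, t j * besselJ0 ‖y - x j‖) ^ 2 +
  (∫ s, F s y * Real.sin (linear F x t s) ∂P -
    (∫ s, Real.cos (linear F x t s) ∂P) * ∑ j, t j * besselJ0 ‖y - x j‖) ^ 2

/-- `liminf (1/R) ∫_{|y| < R} g(y) dy = 0` for a function `g ≥ 0` -/
def MeanVanishes (g : Plane → ℝ) : Prop :=
  ∀ ε : ℝ, 0 < ε → ∀ R₀ : ℝ, ∃ R, R₀ ≤ R ∧ ∫ y in Metric.ball (0 : Plane) R, g y ≤ ε * R

/-- the law of the field is invariant under the isometries fixing the origin -/
def IsIsotropic {d : ℕ} (P : Measure S) (F : S → Space d → ℝ) : Prop :=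
  ∀ ρ : Space d ≃ₗᵢ[ℝ] Space d, P.map (fun s y => F s (ρ y)) = P.map (fun s y => F s y)

open Pool.Agent.X103.Rw

/-- the variance `∑ t_j t_k J₀(|x_j - x_k|)` of `∑ t_j F(x_j)` in the model -/
def modelVariance {n : ℕ} (x : Fin n → Plane) (t : Fin n → ℝ) : ℝ :=
  ∑ j, t j * ∑ k, t k * besselJ0 ‖x j - x k‖

/-- **Characterisation of the random wave model at infinity.** In 1 - 4 let `F` be a stationary
wave on the plane.

1. `F` is the isotropic monochromatic Gaussian wave if and only if the defects of all linear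
statistics vanish in the mean at infinity. Nothing is assumed on the covariance of `F`.
2. In that case all defects are identically `0`.
3. Stability at one scale: let `R ≥ 1` and let the defects of the statistics `uZ`, `0 ≤ u ≤ 1`,
`Z = ∑ t_j F(x_j)`, satisfy `∫_{|y - x_j| < R} defect ≤ δ² R` for all `j`. Then the characteristic
function of `Z` differs from the one of the model by at most `C δ ∑ |t_j|` (in the real part and in
the imaginary part), where `C` is an absolute constant.
4. If `F` is isotropic then its covariance is `E F(0)² · J₀(|x - y|)`, and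
`E F(x) Φ(F(0)) = J₀(|x|) E F(0) Φ(F(0))` for all `x` and all `Φ` with `E Φ(F(0))² < ∞`, that is,
`E[F(x) | F(0)] = J₀(|x|) F(0)` as for the Gaussian wave.
5. In every dimension `d`, if `F` is an isotropic stationary wave on `ℝ^d`, then
`E F(0)² · E F(x) Φ(F(0)) = E F(x) F(0) · E F(0) Φ(F(0))` for all such `x` and `Φ`, that is, the
regression of `F(x)` on `F(0)` is linear. -/
theorem result : (∃ C : ℝ, 0 < C ∧
    ∀ (S : Type) [MeasurableSpace S] (P : Measure S) (F : S → Plane → ℝ),
    IsStationaryWave P F →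
    (IsRandomWaveModel P F ↔ ∀ (n : ℕ) (x : Fin n → Plane) (t : Fin n → ℝ),
      MeanVanishes (defect P F x t)) ∧
    (IsRandomWaveModel P F → ∀ (n : ℕ) (x : Fin n → Plane) (t : Fin n → ℝ) (y : Plane),
      defect P F x t y = 0) ∧
    (∀ (n : ℕ) (x : Fin n → Plane) (t : Fin n → ℝ) (R δ : ℝ), 1 ≤ R → 0 ≤ δ →
      (∀ u : ℝ, 0 ≤ u → u ≤ 1 → ∀ j, ∫ y in Metric.ball (x j) R,
        defect P F x (fun k => u * t k) y ≤ δ ^ 2 * R) →
      |∫ s, Real.cos (linear F x t s) ∂P - Real.exp (-modelVariance x t / 2)| ≤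
        C * δ * ∑ j, |t j| ∧
      |∫ s, Real.sin (linear F x t s) ∂P| ≤ C * δ * ∑ j, |t j|) ∧
    (IsIsotropic P F →
      (∀ x y : Plane, ∫ s, F s y * F s x ∂P = (∫ s, F s 0 ^ 2 ∂P) * besselJ0 ‖y - x‖) ∧
      ∀ Φ : ℝ → ℝ, Measurable Φ → Integrable (fun s => Φ (F s 0) ^ 2) P →
        ∀ x : Plane, ∫ s, F s x * Φ (F s 0) ∂P =
          besselJ0 ‖x‖ * ∫ s, F s 0 * Φ (F s 0) ∂P)) ∧
    ∀ (d : ℕ) (S : Type) [MeasurableSpace S] (P : Measure S) (F : S → Space d → ℝ),
    IsStationaryWave P F → IsIsotropic P F →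
    ∀ Φ : ℝ → ℝ, Measurable Φ → Integrable (fun s => Φ (F s 0) ^ 2) P → ∀ x : Space d,
      (∫ s, F s 0 ^ 2 ∂P) * (∫ s, F s x * Φ (F s 0) ∂P) =
        (∫ s, F s x * F s 0 ∂P) * ∫ s, F s 0 * Φ (F s 0) ∂P := by
  refine ⟨?_, fun d S _ P F hF hI Φ mΦ iΦ x => by
    have := hF.prob
    exact Dim.reg_field hF.measurable hF.smooth hF.eigen hF.stationary hF.moment hI mΦ iΦ x⟩
  obtain ⟨C, C0, hC⟩ := stab
  refine ⟨C, C0, fun S _ P F hF => ?_⟩
  have := hF.prob
  have M : MV P F := mv_field hF.measurable hF.smooth hF.eigen hF.stationary hF.moment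
  refine ⟨model_iff M, fun h n x t y => ?_, fun n x t R δ hR hδ h => ?_, fun hI => ?_⟩
  · have h1 := model_zero M h x t y
    show Rc P F x t y ^ 2 + Rs P F x t y ^ 2 = 0
    rw [h1.1, h1.2]; ring
  · exact hC M x t R δ hR hδ fun u hu j => h u hu.1 hu.2 j
  · have reg : ∀ Φ : ℝ → ℝ, Measurable Φ → Integrable (fun s => Φ (F s 0) ^ 2) P →
        ∀ x : Plane, ∫ s, F s x * Φ (F s 0) ∂P =
          besselJ0 ‖x‖ * ∫ s, F s 0 * Φ (F s 0) ∂P := by
      intro Φ mΦ iΦ x
      have h1 := iso_reg M hI mΦ iΦ x
      have e : ∀ z : Plane, ∫ s, F s z * Φ (F s 0) ∂P = ∫ s, Φ (F s 0) * F s z ∂P := fun z => by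
        congr 1; funext s; ring
      rw [e, e]
      exact h1
    refine ⟨fun x y => ?_, reg⟩
    have mk : Measurable fun f : Plane → ℝ => f (y - x) * f 0 :=
      (measurable_pi_apply _).mul (measurable_pi_apply 0)
    have m1 : Measurable fun (s : S) (z : Plane) => F s (z + x) :=
      measurable_pi_iff.2 fun z => hF.measurable (z + x)
    have m2 : Measurable fun (s : S) (z : Plane) => F s z := measurable_pi_iff.2 hF.measurable
    have h1 := integral_map (μ := P) m1.aemeasurable (f := fun f : Plane → ℝ => f (y - x) * f 0)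
      mk.aestronglyMeasurable
    have h2 := integral_map (μ := P) m2.aemeasurable (f := fun f : Plane → ℝ => f (y - x) * f 0)
      mk.aestronglyMeasurable
    rw [hF.stationary x, h2] at h1
    simp only [sub_add_cancel, zero_add] at h1
    rw [← h1]
    have h3 := reg (fun z => z) measurable_id hF.moment (y - x)
    rw [h3, mul_comm]
    congr 1
    congr 1; funext s; ring

end

end Pool.Agent.Results.MP_4fa179_mp.AsymptoticRandomWave
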