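import Pool.Agent.X127.SW.Red
import Pool.Agent.X127.SW.Sz
import Pool.Agent.Results.MP_4fa179_mp.StationaryWaves

/-!
# The Bernstein–Szegő inequality in law for stationary waves (MP_4fa179_mp)

Every Benjamini-Schramm limit of Laplace eigenfunctions of a compact Riemannian manifold of
dimension `d`, rescaled to eigenvalue `1`, is the law of a stationary random field on `ℝ^d` with
smooth samples, `ΔF + F = 0` and `E F(0)² ≤ 1` (`IsStationaryWave` of the file
`StationaryWaves`). For all such fields the law of a phase shifted derivative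
`cos α F(0) + sin α ∂_v F(0)` is dominated by the law of the value `F(0)`.
-/

set_option autoImplicit false
open MeasureTheory Filter Topology
open scoped ContDiff ENNReal

namespace Pool.Agent.Results.MP_4fa179_mp.BernsteinSzegoLaw

open Pool.Agent.Results.MP_4fa179_mp.StationaryWaves (IsStationaryWave)
open Pool.Agent.X127.SW Pool.Agent.Y139.SW

/-- **The Bernstein–Szegő inequality in law.** For a stationary wave `F` on `ℝ^d`, every unit
vector `v`, every angle `α` and every even convex `Φ ≥ 0`,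
`E Φ(cos α F(0) + sin α ∂_v F(0)) ≤ E Φ(F(0))`. -/
theorem result {d : ℕ} {S : Type*} [MeasurableSpace S] (P : Measure S)
    (F : S → EuclideanSpace ℝ (Fin d) → ℝ) (hF : IsStationaryWave P F)
    (v : EuclideanSpace ℝ (Fin d)) (hv : ‖v‖ = 1) (α : ℝ) (Φ : ℝ → ℝ)
    (hΦ : ConvexOn ℝ Set.univ Φ) (he : ∀ x, Φ (-x) = Φ x) (_h0 : ∀ x, 0 ≤ Φ x) :
    ∫⁻ s, ENNReal.ofReal (Φ (Real.cos α * F s 0 + Real.sin α * fderiv ℝ (F s) 0 v)) ∂P ≤
      ∫⁻ s, ENNReal.ofReal (Φ (F s 0)) ∂P := by
  have := hF.prob
  obtain ⟨Ψ, mΨ, v1, hQ, hτ, W⟩ := red (P := P) hF.measurable hF.smooth hF.eigen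
    hF.stationary hF.moment
  have h := szego hτ W hv α hΦ he
  have cc := conv_cont hΦ
  have m0 : Measurable fun f : Sp d => f.1 0 := W.sf.meas 0
  have m1 : Measurable fun f : Sp d => Dv v f.1 0 := (wdv hτ W v).sf.meas 0
  have m2 : Measurable fun f : Sp d => ENNReal.ofReal
      (Φ (Real.cos α * f.1 0 + Real.sin α * Dv v f.1 0)) :=
    (cc.measurable.comp ((m0.const_mul _).add (m1.const_mul _))).ennreal_ofReal
  have m3 : Measurable fun f : Sp d => ENNReal.ofReal (Φ (f.1 0)) :=
    (cc.measurable.comp m0).ennreal_ofReal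
  rw [lintegral_map m2 mΨ, lintegral_map m3 mΨ] at h
  simp only [v1] at h
  exact h

end Pool.Agent.Results.MP_4fa179_mp.BernsteinSzegoLaw
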