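import Pool.Agent.X127.SW.GC2
import Pool.Agent.Results.MP_4fa179_mp.StationaryWaves

/-!
# When is a stationary wave Gaussian? (MP_4fa179_mp)

Every Benjamini-Schramm limit of Laplace eigenfunctions of a compact Riemannian manifold of
dimension `d`, rescaled to eigenvalue `1`, is the law of a stationary random field on `ℝ^d` with
smooth samples, `ΔF + F = 0` and `E F(0)² ≤ 1` (`IsStationaryWave` of the file
`StationaryWaves`). The theorem characterises the Gaussian ones among these fields.
-/

set_option autoImplicit false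
open MeasureTheory Filter Topology ProbabilityTheory
open scoped ContDiff ENNReal NNReal

namespace Pool.Agent.Results.MP_4fa179_mp.GaussianCriterion

noncomputable section

open Pool.Agent.Results.MP_4fa179_mp.StationaryWaves (IsStationaryWave)
open Pool.Agent.X127.SW Pool.Agent.Y139.SW

variable {d : ℕ} {S : Type*} [MeasurableSpace S]

/-- the linear combination `∑ c_i F(x_i)` -/
def comb (F : S → EuclideanSpace ℝ (Fin d) → ℝ) {n : ℕ} (c : Fin n → ℝ)
    (x : Fin n → EuclideanSpace ℝ (Fin d)) (s : S) : ℝ := ∑ i, c i * F s (x i)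

/-- the squared length `|∑ c_i ∇F(x_i)|²` of the same combination of the gradients -/
def gradSq (F : S → EuclideanSpace ℝ (Fin d) → ℝ) {n : ℕ} (c : Fin n → ℝ)
    (x : Fin n → EuclideanSpace ℝ (Fin d)) (s : S) : ℝ :=
  ∑ j, (∑ i, c i * fderiv ℝ (F s) (x i) (EuclideanSpace.single j 1)) ^ 2

/-- the variance of `∑ c_i F(x_i)`, a field of mean zero -/
def var (P : Measure S) (F : S → EuclideanSpace ℝ (Fin d) → ℝ) {n : ℕ} (c : Fin n → ℝ)
    (x : Fin n → EuclideanSpace ℝ (Fin d)) : ℝ≥0 := (∫ s, comb F c x s ^ 2 ∂P).toNNReal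

/-- the combination `∑ c_i F(x_i)` is a centred Gaussian variable -/
def IsNormal (P : Measure S) (F : S → EuclideanSpace ℝ (Fin d) → ℝ) {n : ℕ} (c : Fin n → ℝ)
    (x : Fin n → EuclideanSpace ℝ (Fin d)) : Prop :=
  P.map (comb F c x) = gaussianReal 0 (var P F c x)

/-- the conditional expectation of `|∑ c_i ∇F(x_i)|²` given the value of `∑ c_i F(x_i)` does not
depend on this value: it is the variance of `∑ c_i F(x_i)` -/
def ConstantGradient (P : Measure S) (F : S → EuclideanSpace ℝ (Fin d) → ℝ) {n : ℕ}
    (c : Fin n → ℝ) (x : Fin n → EuclideanSpace ℝ (Fin d)) : Prop :=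
  P[gradSq F c x | MeasurableSpace.comap (comb F c x) inferInstance] =ᵐ[P]
    fun _ => (var P F c x : ℝ)

/-- `F` is a centred Gaussian field -/
def IsGaussianField (P : Measure S) (F : S → EuclideanSpace ℝ (Fin d) → ℝ) : Prop :=
  ∀ (n : ℕ) (c : Fin n → ℝ) (x : Fin n → EuclideanSpace ℝ (Fin d)), IsNormal P F c x

/-- **A criterion for the Gaussian law.** For a stationary wave on `ℝ^d` and every finite
combination of its values, the combination is Gaussian if and only if the squared length of its
gradient has constant conditional expectation given the value. Hence the wave is a Gaussian field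
if and only if this holds for all combinations. -/
theorem result (P : Measure S) (F : S → EuclideanSpace ℝ (Fin d) → ℝ)
    (hF : IsStationaryWave P F) :
    (∀ (n : ℕ) (c : Fin n → ℝ) (x : Fin n → EuclideanSpace ℝ (Fin d)),
      IsNormal P F c x ↔ ConstantGradient P F c x) ∧
    (IsGaussianField P F ↔ ∀ (n : ℕ) (c : Fin n → ℝ) (x : Fin n → EuclideanSpace ℝ (Fin d)),
      ConstantGradient P F c x) := by
  have hprob := hF.prob
  have main : ∀ (n : ℕ) (c : Fin n → ℝ) (x : Fin n → EuclideanSpace ℝ (Fin d)),
      IsNormal P F c x ↔ ConstantGradient P F c x := by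
    intro n c x
    obtain ⟨Ψ, mΨ, v1, hQ, hτ, W⟩ := red (P := P) hF.measurable hF.smooth hF.eigen
      hF.stationary hF.moment
    obtain ⟨Q, hQd⟩ : ∃ Q, Q = P.map Ψ := ⟨_, rfl⟩
    rw [← hQd] at hQ hτ W
    have Wc := Pool.Agent.X127.SW.comb hτ W c x
    obtain ⟨G, hG⟩ : ∃ G : Sp d → E d → ℝ, G = fun f y => ∑ i, c i * f.1 (y + x i) := ⟨_, rfl⟩
    rw [← hG] at Wc
    have m0 : Measurable fun f => G f 0 := Wc.m0
    have eX : ∀ s, G (Ψ s) 0 = comb F c x s := by
      intro s
      rw [hG]
      unfold comb
      simp only [v1, zero_add]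
    have eG : ∀ s, Ga G (Ψ s) = gradSq F c x s := by
      intro s
      unfold Ga gradSq
      refine Finset.sum_congr rfl fun j _ => ?_
      congr 1
      rw [hG]
      have h1 := D_comb c x (Ψ s).2.1 j 0
      refine h1.trans ?_
      refine Finset.sum_congr rfl fun i _ => ?_
      rw [zero_add, v1]
      rfl
    have mΓ : Measurable (Ga G) := Ga_meas hτ Wc
    have iΓ : Integrable (Ga G) Q := Ga_int hτ Wc
    have mX : Measurable (comb F c x) := by
      have : (fun s => G (Ψ s) 0) = comb F c x := funext eX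
      rw [← this]
      exact m0.comp mΨ
    have e2 : ∫ f, G f 0 ^ 2 ∂Q = ∫ s, comb F c x s ^ 2 ∂P := by
      rw [hQd, integral_map mΨ.aemeasurable (m0.pow_const 2).aestronglyMeasurable]
      simp only [eX]
    have hv : ((var P F c x : ℝ≥0) : ℝ) = ∫ f, G f 0 ^ 2 ∂Q := by
      rw [e2]
      unfold var
      exact Real.coe_toNNReal _ (integral_nonneg fun s => sq_nonneg _)
    have cr := crit hτ Wc hv
    have e3 : Q.map (fun f => G f 0) = P.map (comb F c x) := by
      rw [hQd, Measure.map_map m0 mΨ]
      congr 1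
      exact funext eX
    rw [e3] at cr
    refine cr.trans ?_
    -- transfer of the conditional expectation
    obtain ⟨v, hvd⟩ : ∃ v : ℝ, v = (var P F c x : ℝ) := ⟨_, rfl⟩
    unfold ConstantGradient
    rw [← hvd]
    have hm1 : MeasurableSpace.comap (fun f => G f 0) inferInstance ≤
      (inferInstance : MeasurableSpace (Sp d)) := m0.comap_le
    have hm2 : MeasurableSpace.comap (comb F c x) inferInstance ≤
      (inferInstance : MeasurableSpace S) := mX.comap_le
    have iΓ' : Integrable (gradSq F c x) P := by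
      have h1 : Integrable (Ga G ∘ Ψ) P := by
        rw [← integrable_map_measure mΓ.aestronglyMeasurable mΨ.aemeasurable, ← hQd]
        exact iΓ
      refine h1.congr (ae_of_all _ fun s => eG s)
    have set_eq : ∀ V : Set ℝ, MeasurableSet V →
        ∫ f in (fun f => G f 0) ⁻¹' V, Ga G f ∂Q = ∫ s in comb F c x ⁻¹' V, gradSq F c x s ∂P ∧
        ∫ f in (fun f => G f 0) ⁻¹' V, v ∂Q = ∫ s in comb F c x ⁻¹' V, v ∂P := by
      intro V mV
      have e4 : Ψ ⁻¹' ((fun f => G f 0) ⁻¹' V) = comb F c x ⁻¹' V := by
        ext s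
        show G (Ψ s) 0 ∈ V ↔ comb F c x s ∈ V
        rw [eX]
      constructor
      · rw [hQd, setIntegral_map (m0 mV) mΓ.aestronglyMeasurable mΨ.aemeasurable, e4]
        simp only [eG]
      · rw [hQd, setIntegral_map (m0 mV) stronglyMeasurable_const.aestronglyMeasurable
          mΨ.aemeasurable, e4]
    constructor
    · intro h
      refine (ae_eq_condExp_of_forall_setIntegral_eq hm2 iΓ' (fun A _ _ =>
        (integrable_const _).integrableOn) ?_ stronglyMeasurable_const.aestronglyMeasurable).symm
      rintro A ⟨V, mV, rfl⟩ -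
      obtain ⟨s1, s2⟩ := set_eq V mV
      rw [← s1, ← s2, ← setIntegral_condExp hm1 iΓ ⟨V, mV, rfl⟩]
      exact integral_congr_ae (ae_restrict_of_ae (h.mono fun f hf => hf.symm))
    · intro h
      refine (ae_eq_condExp_of_forall_setIntegral_eq hm1 iΓ (fun A _ _ =>
        (integrable_const _).integrableOn) ?_ stronglyMeasurable_const.aestronglyMeasurable).symm
      rintro A ⟨V, mV, rfl⟩ -
      obtain ⟨s1, s2⟩ := set_eq V mV
      rw [s1, s2, ← setIntegral_condExp hm2 iΓ' ⟨V, mV, rfl⟩]
      exact integral_congr_ae (ae_restrict_of_ae (h.mono fun f hf => hf.symm))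
  exact ⟨main, forall_congr' fun n => forall_congr' fun c => forall_congr' fun x => main n c x⟩

end

end Pool.Agent.Results.MP_4fa179_mp.GaussianCriterion
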