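import Pool.Agent.X127.SW.Red
import Pool.Agent.X127.SW.Rev
import Pool.Agent.X127.PB.Gr2
import Pool.Agent.Results.MP_4fa179_mp.StationaryWaves

/-!
# The reverse Bernstein inequality in law for stationary waves (MP_4fa179_mp)

Every Benjamini-Schramm limit of Laplace eigenfunctions of a compact Riemannian manifold of
dimension `d`, rescaled to eigenvalue `1`, is the law of a stationary random field on `ℝ^d` with
smooth samples, `ΔF + F = 0` and `E F(0)² ≤ 1` (`IsStationaryWave` of the file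
`StationaryWaves`). For all such fields the law of the value `F(0)` is controlled by the laws of
the partial derivatives in any orthonormal basis.
-/

set_option autoImplicit false
open MeasureTheory Filter Topology
open scoped ContDiff ENNReal

namespace Pool.Agent.Results.MP_4fa179_mp.ReverseBernstein

open Pool.Agent.Results.MP_4fa179_mp.StationaryWaves (IsStationaryWave)
open Pool.Agent.X127.SW Pool.Agent.Y139.SW

/-- **The reverse Bernstein inequality in law.** Let `F` be a stationary wave on `ℝ^d` and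
`b_1, ..., b_d` an orthonormal basis.
(1) For all weights `p_i > 0` with sum `1` and every even convex `Φ ≥ 0`,
`E Φ(F(0)) ≤ ∑ p_i E Φ(∂_{b_i} F(0) / p_i)`.
(2) `E Φ(F(0)) ≤ E Φ(d |∇F(0)|)` for the same `Φ`.
(3) `‖F(0)‖_q ≤ ∑ ‖∂_{b_i} F(0)‖_q` for `1 ≤ q < ∞`.
(4) If `|∂_{b_i} F(0)| ≤ K_i` almost surely for all `i`, then `|F(0)| ≤ ∑ K_i` almost surely. -/
theorem result {d : ℕ} {S : Type*} [MeasurableSpace S] (P : Measure S)
    (F : S → EuclideanSpace ℝ (Fin d) → ℝ) (hF : IsStationaryWave P F)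
    (b : OrthonormalBasis (Fin d) ℝ (EuclideanSpace ℝ (Fin d))) :
    (∀ p : Fin d → ℝ, (∀ i, 0 < p i) → ∑ i, p i = 1 → ∀ Φ : ℝ → ℝ, ConvexOn ℝ Set.univ Φ →
      (∀ x, Φ (-x) = Φ x) → (∀ x, 0 ≤ Φ x) →
      ∫⁻ s, ENNReal.ofReal (Φ (F s 0)) ∂P ≤
        ∑ i, ENNReal.ofReal (p i) *
          ∫⁻ s, ENNReal.ofReal (Φ (fderiv ℝ (F s) 0 (b i) / p i)) ∂P) ∧
    (∀ Φ : ℝ → ℝ, ConvexOn ℝ Set.univ Φ → (∀ x, Φ (-x) = Φ x) → (∀ x, 0 ≤ Φ x) →
      ∫⁻ s, ENNReal.ofReal (Φ (F s 0)) ∂P ≤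
        ∫⁻ s, ENNReal.ofReal (Φ (d * ‖fderiv ℝ (F s) 0‖)) ∂P) ∧
    (∀ q : ℝ, 1 ≤ q → eLpNorm (fun s => F s 0) (ENNReal.ofReal q) P ≤
      ∑ i, eLpNorm (fun s => fderiv ℝ (F s) 0 (b i)) (ENNReal.ofReal q) P) ∧
    ∀ K : Fin d → ℝ, (∀ i, ∀ᵐ s ∂P, |fderiv ℝ (F s) 0 (b i)| ≤ K i) →
      ∀ᵐ s ∂P, |F s 0| ≤ ∑ i, K i := by
  have := hF.prob
  obtain ⟨Ψ, mΨ, v1, hQ, hτ, W⟩ := red (P := P) hF.measurable hF.smooth hF.eigen
    hF.stationary hF.moment
  have m0 : Measurable fun f : Sp d => f.1 0 := W.sf.meas 0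
  have m1 : ∀ v : E d, Measurable fun f : Sp d => Dv v f.1 0 := fun v => (wdv hτ W v).sf.meas 0
  have A : ∀ p : Fin d → ℝ, (∀ i, 0 < p i) → ∑ i, p i = 1 → ∀ Φ : ℝ → ℝ,
      ConvexOn ℝ Set.univ Φ → (∀ x, Φ (-x) = Φ x) → (∀ x, 0 ≤ Φ x) →
      ∫⁻ s, ENNReal.ofReal (Φ (F s 0)) ∂P ≤
        ∑ i, ENNReal.ofReal (p i) *
          ∫⁻ s, ENNReal.ofReal (Φ (fderiv ℝ (F s) 0 (b i) / p i)) ∂P := by
    intro p p0 p1 Φ cΦ ev Φ0
    have cc := conv_cont cΦ
    have h := rev hτ W b p0 p1 cΦ ev Φ0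
    have m3 : Measurable fun f : Sp d => ENNReal.ofReal (Φ (f.1 0)) :=
      (cc.measurable.comp m0).ennreal_ofReal
    rw [lintegral_map m3 mΨ] at h
    simp only [v1] at h
    refine h.trans (le_of_eq (Finset.sum_congr rfl fun i _ => ?_))
    congr 1
    have m4 : Measurable fun f : Sp d => ENNReal.ofReal (Φ (Dv (b i) f.1 0 / p i)) :=
      (cc.measurable.comp ((m1 (b i)).div_const _)).ennreal_ofReal
    rw [lintegral_map m4 mΨ]
    simp only [v1]
    rfl
  refine ⟨A, fun Φ cΦ ev Φ0 => ?_, fun q hq => ?_, fun K hK => ?_⟩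
  · rcases Nat.eq_zero_or_pos d with h0 | h0
    · refine lintegral_mono fun s => ?_
      have e1 : F s 0 = 0 := by
        have h1 := hF.eigen s 0
        have h2 : Pool.Agent.Results.MP_4fa179_mp.StationaryWaves.laplacian (F s) 0 = 0 := by
          subst h0
          rfl
        rw [h2, zero_add] at h1
        exact h1
      have e2 : (d : ℝ) = 0 := by exact_mod_cast h0
      show ENNReal.ofReal (Φ (F s 0)) ≤ ENNReal.ofReal (Φ (d * ‖fderiv ℝ (F s) 0‖))
      rw [e1, e2, zero_mul]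
    · have d0 : (0 : ℝ) < d := by exact_mod_cast h0
      have s1 : ∑ _i : Fin d, (1 / (d : ℝ)) = 1 := by
        rw [Finset.sum_const, Finset.card_univ, Fintype.card_fin, nsmul_eq_mul,
          mul_one_div_cancel d0.ne']
      refine (A (fun _ => 1 / d) (fun _ => by positivity) s1 Φ cΦ ev Φ0).trans ?_
      have up : ∀ i, ∫⁻ s, ENNReal.ofReal (Φ (fderiv ℝ (F s) 0 (b i) / (1 / d))) ∂P ≤
          ∫⁻ s, ENNReal.ofReal (Φ (d * ‖fderiv ℝ (F s) 0‖)) ∂P := by
        intro i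
        refine lintegral_mono fun s => ENNReal.ofReal_le_ofReal ?_
        refine Pool.Agent.X127.PB.even_mono cΦ ev ?_
        rw [div_div_eq_mul_div, div_one, abs_mul, abs_of_pos d0,
          abs_of_nonneg (mul_nonneg d0.le (norm_nonneg _)), mul_comm]
        refine mul_le_mul_of_nonneg_left ?_ d0.le
        have := (fderiv ℝ (F s) 0).le_opNorm (b i)
        rw [b.norm_eq_one i, mul_one] at this
        exact this
      calc ∑ i, ENNReal.ofReal (1 / d) *
            ∫⁻ s, ENNReal.ofReal (Φ (fderiv ℝ (F s) 0 (b i) / (1 / d))) ∂P ≤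
          ∑ _i : Fin d, ENNReal.ofReal (1 / d) *
            ∫⁻ s, ENNReal.ofReal (Φ (d * ‖fderiv ℝ (F s) 0‖)) ∂P :=
            Finset.sum_le_sum fun i _ => mul_le_mul' le_rfl (up i)
        _ = (∑ _i : Fin d, ENNReal.ofReal (1 / d)) *
            ∫⁻ s, ENNReal.ofReal (Φ (d * ‖fderiv ℝ (F s) 0‖)) ∂P := by rw [Finset.sum_mul]
        _ = _ := by
            rw [← ENNReal.ofReal_sum_of_nonneg fun _ _ => by positivity, s1,
              ENNReal.ofReal_one, one_mul]
  · have h := rev_lq hτ W b hq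
    rw [eLpNorm_map_measure m0.aestronglyMeasurable mΨ.aemeasurable] at h
    have e1 : ((fun f : Sp d => f.1 0) ∘ Ψ) = fun s => F s 0 := by
      funext s
      show (Ψ s).1 0 = F s 0
      rw [v1]
    rw [e1] at h
    refine h.trans (le_of_eq (Finset.sum_congr rfl fun i _ => ?_))
    rw [eLpNorm_map_measure (m1 (b i)).aestronglyMeasurable mΨ.aemeasurable]
    congr 1
    funext s
    show Dv (b i) (Ψ s).1 0 = _
    rw [v1]
    rfl
  · have hK' : ∀ i, ∀ᵐ f ∂(P.map Ψ), |Dv (b i) f.1 0| ≤ K i := by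
      intro i
      have ms : MeasurableSet {f : Sp d | |Dv (b i) f.1 0| ≤ K i} :=
        measurableSet_le (continuous_abs.measurable.comp (m1 (b i))) measurable_const
      rw [ae_map_iff mΨ.aemeasurable ms]
      simp only [v1]
      exact hK i
    have h := rev_sup hτ W b hK'
    have ms : MeasurableSet {f : Sp d | |f.1 0| ≤ ∑ i, K i} :=
      measurableSet_le (continuous_abs.measurable.comp m0) measurable_const
    rw [ae_map_iff mΨ.aemeasurable ms] at h
    simp only [v1] at h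
    exact h

end Pool.Agent.Results.MP_4fa179_mp.ReverseBernstein
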